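import Pool.Agent.V11287.BF8

/-!
# MP_cdfc49_an

For `n = 2`, `s = 1` and `ν = -δ ∈ (n-2s-1, n-2s) = (-1,0)` with `0 < δ ≤ 1/1000`, all zeros of
`J_ν''` are real, so Q1 (which predicts four nonreal zeros) is false.
-/

open Set Filter Topology Pool.Agent.V11287.BF

namespace Pool.Agent.Results.MP_cdfc49_an.AllZerosReal

noncomputable section

/-- `J_ν(x) = ∑ (-1)^m / (m! Γ(m+ν+1)) (x/2)^{2m+ν}` for real `x > 0` (with the real power). -/
def besselJ (ν : ℝ) (x : ℝ) : ℝ :=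
  ∑' m : ℕ, (-1) ^ m / (m.factorial * Real.Gamma (m + ν + 1)) * (x / 2) ^ (2 * m + ν)

/-- `G_{ν,n}(z) = ∑ (-1)^m (ν+2m)(ν+2m-1)⋯(ν+2m-n+1) / (m! Γ(ν+m+1)) (z/2)^{2m}`. -/
def G (ν : ℝ) (n : ℕ) (z : ℂ) : ℂ :=
  ∑' m : ℕ, (((-1) ^ m * (∏ i ∈ Finset.range n, (ν + 2 * m - i)) /
      (m.factorial * Real.Gamma (m + ν + 1)) : ℝ) : ℂ) * (z / 2) ^ (2 * m)

/-- the number of nonreal zeros of `g`, counted with multiplicity, is `N` -/
def NonrealZeroCount (g : ℂ → ℂ) (N : ℕ) : Prop :=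
  ∃ h : {z : ℂ | g z = 0 ∧ z.im ≠ 0}.Finite, ∑ z ∈ h.toFinset, analyticOrderNatAt g z = N

lemma pb_cL (κ δ : ℝ) (hδ0 : 0 ≤ δ) (hδ : δ ≤ 1 / 2) : PB (fun m => κ * cL δ m) := by
  refine ⟨|κ|, 4, abs_nonneg _, by norm_num, fun m => ?_⟩
  have h1 := cL_pos δ (by linarith) m
  rw [abs_mul, abs_of_pos h1]
  apply mul_le_mul_of_nonneg_left _ (abs_nonneg _)
  refine le_of_tendsto ((tendsto_cR δ (by linarith) m)) ?_
  filter_upwards [eventually_gt_atTop 0] with N hN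
  exact cR_le δ hδ0 hδ N m hN

/-- the link between the series `G` and the derivatives of `J_ν` on `(0,∞)` -/
theorem deriv_eq (δ : ℝ) (hδ0 : 0 < δ) (hδ : δ ≤ 1 / 1000) (n : ℕ) (x : ℝ) (hx : 0 < x) :
    ((iteratedDeriv n (besselJ (-δ)) x : ℝ) : ℂ) =
      (((1 / 2) ^ n * (x / 2) ^ (-δ - n) : ℝ) : ℂ) * G (-δ) n x := by
  have hδ1 : δ < 1 := by linarith
  set b : ℕ → ℝ := fun m => (1 / 2) ^ (-δ) * ((-1 / 4) ^ m * (kap δ * cL δ m)) with hb
  have hpb : PB b := by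
    obtain ⟨K, R, hK, hR, h⟩ := pb_cL (kap δ) δ hδ0.le (by linarith)
    refine ⟨(1 / 2) ^ (-δ) * K, R, by positivity, hR, fun m => ?_⟩
    rw [hb]
    simp only
    rw [abs_mul, abs_mul, abs_of_pos (by positivity : (0:ℝ) < (1 / 2) ^ (-δ)), mul_assoc]
    apply mul_le_mul_of_nonneg_left _ (by positivity)
    have h1 : |(-1 / 4 : ℝ) ^ m| ≤ 1 := by
      rw [abs_pow]
      apply pow_le_one₀ (abs_nonneg _)
      rw [abs_le]; constructor <;> norm_num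
    calc |(-1 / 4 : ℝ) ^ m| * |kap δ * cL δ m| ≤ 1 * |kap δ * cL δ m| :=
          mul_le_mul_of_nonneg_right h1 (abs_nonneg _)
      _ = |kap δ * cL δ m| := one_mul _
      _ ≤ _ := h m
  have hJ : ∀ t : ℝ, 0 < t → besselJ (-δ) t = t ^ (-δ) * fR b (t ^ 2) := by
    intro t ht
    unfold besselJ fR
    rw [← tsum_mul_left]
    congr 1
    ext m
    have e1 : (t / 2) ^ (2 * (m:ℝ) + -δ) = t ^ (-δ) * (1 / 2) ^ (-δ) * (t / 2) ^ (2 * m) := by
      rw [Real.rpow_add (by positivity), div_eq_mul_one_div t 2,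
        Real.mul_rpow (y := 1/2) (z := -δ) ht.le (by norm_num)]
      have : (t * (1 / 2)) ^ (2 * (m:ℝ)) = (t * (1 / 2)) ^ (2 * m) := by
        rw [← Real.rpow_natCast]
        push_cast
        rfl
      rw [this]
      ring
    have e2 := cL_eq δ hδ1 m
    rw [e1, hb]
    simp only
    rw [← e2]
    have e3 : (-1 / 4 : ℝ) ^ m * (t ^ 2) ^ m = (-1) ^ m * (t / 2) ^ (2 * m) := by
      rw [pow_mul, ← mul_pow, ← mul_pow]
      congr 1
      ring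
    calc _ = t ^ (-δ) * ((1 / 2) ^ (-δ) * ((1 / ((m.factorial : ℝ) * Real.Gamma ((m : ℝ) + -δ + 1))) *
          ((-1) ^ m * (t / 2) ^ (2 * m)))) := by ring
      _ = _ := by rw [← e3]; ring
  have h1 : besselJ (-δ) =ᶠ[𝓝 x] fun t => t ^ (-δ) * fR b (t ^ 2) := by
    filter_upwards [Ioi_mem_nhds hx] with t ht
    exact hJ t ht
  rw [h1.iteratedDeriv_eq, iteratedDeriv_pow_mul hpb (-δ) n x hx]
  have e4 : ((1 / 2 : ℝ)) ^ n * (x / 2) ^ (-δ - n) * (1 / 2) ^ δ = x ^ (-δ - n) := by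
    rw [div_eq_mul_one_div x 2, Real.mul_rpow hx.le (by norm_num), ← Real.rpow_natCast (1/2) n]
    have : (1 / 2 : ℝ) ^ ((n : ℕ) : ℝ) * (x ^ (-δ - n) * (1 / 2) ^ (-δ - n)) * (1 / 2) ^ δ =
        x ^ (-δ - n) * ((1 / 2 : ℝ) ^ ((n : ℕ) : ℝ) * (1 / 2) ^ (-δ - n) * (1 / 2) ^ δ) := by ring
    rw [this, ← Real.rpow_add (by norm_num), ← Real.rpow_add (by norm_num)]
    have : (n : ℝ) + (-δ - n) + δ = 0 := by ring
    rw [this, Real.rpow_zero, mul_one]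
  have e5 : (1 / 2 : ℝ) ^ δ * (1 / 2) ^ (-δ) = 1 := by
    rw [← Real.rpow_add (by norm_num), add_neg_cancel, Real.rpow_zero]
  have e6 : G (-δ) n x = ((∑' m : ℕ, ((-1) ^ m * (∏ i ∈ Finset.range n, (-δ + 2 * m - i)) /
      (m.factorial * Real.Gamma (m + -δ + 1))) * (x / 2) ^ (2 * m) : ℝ) : ℂ) := by
    unfold G
    rw [Complex.ofReal_tsum]
    congr 1
    ext m
    push_cast
    rfl
  rw [e6, ← Complex.ofReal_mul]
  congr 1
  rw [← e4]
  unfold fR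
  rw [mul_assoc, ← tsum_mul_left]
  congr 1
  congr 1
  ext m
  unfold dc
  rw [hb]
  simp only
  rw [← cL_eq δ hδ1 m]
  have e3 : (-1 / 4 : ℝ) ^ m * (x ^ 2) ^ m = (-1) ^ m * (x / 2) ^ (2 * m) := by
    rw [pow_mul, ← mul_pow, ← mul_pow]
    congr 1
    ring
  calc _ = ((1 / 2 : ℝ) ^ δ * (1 / 2) ^ (-δ)) * (∏ i ∈ Finset.range n, (-δ + 2 * m - i)) *
        (1 / ((m.factorial : ℝ) * Real.Gamma ((m : ℝ) + -δ + 1))) *
          ((-1 / 4 : ℝ) ^ m * (x ^ 2) ^ m) := by ring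
    _ = _ := by rw [e5, e3]; ring

/-- all zeros of `G_{-δ,2}` are real -/
theorem all_real (δ : ℝ) (hδ0 : 0 < δ) (hδ : δ ≤ 1 / 1000) (z : ℂ) (hz : G (-δ) 2 z = 0) :
    z.im = 0 := by
  have hδ1 : δ < 1 := by linarith
  have hlim := lim_F (kap δ) δ hδ0 hδ
  have hG : G (-δ) 2 z = fC (aF (kap δ) δ) (-(z / 2) ^ 2) := by
    unfold G fC
    congr 1
    ext m
    have e2 := cL_eq δ hδ1 m
    have e3 : (-(z / 2) ^ 2) ^ m = (-1) ^ m * (z / 2) ^ (2 * m) := by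
      rw [neg_pow, pow_mul]
    rw [e3]
    have e4 : ((-1) ^ m * (∏ i ∈ Finset.range 2, (-δ + 2 * m - i)) /
      (m.factorial * Real.Gamma (m + -δ + 1)) : ℝ) = (-1) ^ m * aF (kap δ) δ m := by
      unfold aF
      calc _ = (-1) ^ m * (∏ i ∈ Finset.range 2, (-δ + 2 * (m:ℝ) - i)) *
            (1 / ((m.factorial : ℝ) * Real.Gamma ((m : ℝ) + -δ + 1))) := by ring
        _ = _ := by
          rw [e2]
          simp only [Finset.prod_range_succ, Finset.prod_range_zero]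
          push_cast
          ring
    rw [e4]
    push_cast
    ring
  rw [hG] at hz
  have h0 : aF (kap δ) δ 0 ≠ 0 := by
    rw [aF_zero]
    have := kap_pos δ hδ1
    positivity
  have him := hlim.real_zeros h0 _ hz
  set w : ℂ := -(z / 2) ^ 2 with hw
  have hwre : w = ((w.re : ℝ) : ℂ) := by
    apply Complex.ext <;> simp [him]
  rw [hwre, fC_ofReal] at hz
  have hz' : fR (aF (kap δ) δ) w.re = 0 := by exact_mod_cast hz
  have hneg : w.re < 0 := by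
    by_contra hcon
    push Not at hcon
    have := fF_pos (kap δ) δ hδ0 hδ (kap_pos δ hδ1) w.re hcon
    linarith
  -- `z² = -4 w > 0`
  have h1 : w.re = -(z.re ^ 2 - z.im ^ 2) / 4 := by
    rw [hw]
    simp [sq, Complex.mul_re, Complex.div_re, Complex.div_im]
    ring
  have h2 : w.im = -(z.re * z.im) / 2 := by
    rw [hw]
    simp [sq, Complex.mul_im, Complex.div_re, Complex.div_im]
    ring
  rw [him] at h2
  have h3 : z.re * z.im = 0 := by linarith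
  rcases mul_eq_zero.mp h3 with h4 | h4
  · exfalso
    rw [h4] at h1
    nlinarith [sq_nonneg z.im]
  · exact h4

/-- **Main result.**  For `0 < δ ≤ 1/1000` all zeros of `J''_{-δ}` (that is, of `G_{-δ,2}`, which
satisfies `J''_{-δ}(x) = 2^{-2} (x/2)^{-δ-2} G_{-δ,2}(x)` for `x > 0`) are real.  So the assertion
of Q1, which for `n = 2`, `s = 1` predicts four nonreal zeros, is false. -/
theorem result :
    (∀ δ : ℝ, 0 < δ → δ ≤ 1 / 1000 →
      (∀ x : ℝ, 0 < x → ((iteratedDeriv 2 (besselJ (-δ)) x : ℝ) : ℂ) =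
        (((1 / 2) ^ 2 * (x / 2) ^ (-δ - 2) : ℝ) : ℂ) * G (-δ) 2 x) ∧
      ∀ z : ℂ, G (-δ) 2 z = 0 → z.im = 0) ∧
    ¬ ∀ (n s : ℕ) (ν : ℝ), 1 ≤ s → ν ∈ Ioo ((n : ℝ) - 2 * s - 1) ((n : ℝ) - 2 * s) →
      NonrealZeroCount (G ν n) (4 * s) ∧ ∀ y : ℝ, y ≠ 0 → G ν n (y * Complex.I) ≠ 0 := by
  refine ⟨fun δ hδ0 hδ => ⟨fun x hx => ?_, all_real δ hδ0 hδ⟩, fun h => ?_⟩
  · have := deriv_eq δ hδ0 hδ 2 x hx
    exact_mod_cast this
  · obtain ⟨hfin, hsum⟩ := (h 2 1 (-(1 / 1000)) le_rfl (by constructor <;> norm_num)).1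
    have hempty : hfin.toFinset = ∅ := by
      rw [Finset.eq_empty_iff_forall_notMem]
      intro z hz
      rw [Set.Finite.mem_toFinset] at hz
      exact hz.2 (all_real (1 / 1000) (by norm_num) le_rfl z hz.1)
    rw [hempty] at hsum
    simp at hsum

end

end Pool.Agent.Results.MP_cdfc49_an.AllZerosReal
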